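import Pool.Agent.U295.HK.E

/-!
# MP_6996b5_co: monotonicity in `t` of the number of 2-hooks over `t`-regular partitions
-/

set_option autoImplicit false

open Finset

namespace Pool.Agent.Results.MP_6996b5_co.TwoHooks

/-- The `t`-regular partitions of `n`: no part is divisible by `t`. -/
def regular (t n : ℕ) : Finset (Nat.Partition n) :=
  univ.filter (fun p => ∀ a ∈ p.parts, ¬ t ∣ a)

/-- The length of the row `i` (rows are numbered from `0`; the parts are sorted in
non-increasing order; the length is `0` beyond the last row). -/
def row {n : ℕ} (p : Nat.Partition n) (i : ℕ) : ℕ :=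
  (p.parts.sort (fun a b => b ≤ a)).getD i 0

/-- The length of the column `j` (columns are numbered from `0`): the number of parts larger
than `j`, which is the part number `j + 1` of the conjugate partition. -/
def col {n : ℕ} (p : Nat.Partition n) (j : ℕ) : ℕ :=
  (p.parts.filter (fun a => j < a)).card

/-- The cells `(i, j)` of the Young diagram. -/
def cells {n : ℕ} (p : Nat.Partition n) : Finset (ℕ × ℕ) :=
  (range n ×ˢ range n).filter (fun c => c.2 < row p c.1)

/-- The hook length of a cell: arm plus leg plus one. -/
def hookLength {n : ℕ} (p : Nat.Partition n) (c : ℕ × ℕ) : ℕ :=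
  (row p c.1 - c.2 - 1) + (col p c.2 - c.1 - 1) + 1

/-- The number of cells of hook length `k`. -/
def hooks (k : ℕ) {n : ℕ} (p : Nat.Partition n) : ℕ :=
  ((cells p).filter (fun c => hookLength p c = k)).card

/-- `b t k n`: the number of hooks of length `k` in all `t`-regular partitions of `n`. -/
def b (t k n : ℕ) : ℕ := ∑ p ∈ regular t n, hooks k p

/-- For all `t ≥ 3` and all `n`, there are at least as many hooks of length two in the
`(t+1)`-regular partitions of `n` as in the `t`-regular partitions of `n`. -/
theorem result (t : ℕ) (ht : 3 ≤ t) (n : ℕ) : b (t + 1) 2 n ≥ b t 2 n :=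
  Pool.Agent.U295.HK.b_mono t ht n

end Pool.Agent.Results.MP_6996b5_co.TwoHooks
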